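import Pool.Agent.KS6_42.FE.Constr

/-!
# The exact minimum number of edges for a given maximum forcing number

Let `G` be a graph on `2 n` vertices with a perfect matching and let `k = n - F(G)`, where `F(G)` is
the maximum forcing number. If `r` is the remainder of `n` modulo `k` then
`e(G) ≥ (n² + r (k - r)) / k`, and this is the exact minimum for all `n` and `F`: it is attained by
the disjoint union of `k` balanced complete bipartite graphs.
-/

set_option autoImplicit false

namespace Pool.Agent.Results.MP_f5b231_co.ExactMinimum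

open Pool.Agent.KS6_42.FE

/-- Let `n ≥ 1`.

* Every graph `G` on `2 n` vertices with a perfect matching has `F(G) < n` and, with
  `k = n - F(G)` and `r = n % k`, at least `(n² + r (k - r)) / k` edges. In particular
  `e(G) ≥ n² / (n - F(G))`, and equality is possible only if `n - F(G)` divides `n`.
* For every `F < n`, with `k = n - F` and `r = n % k`, the minimum number of edges of the graphs on
  `2 n` vertices with a perfect matching and with maximum forcing number `F` is exactly
  `(n² + r (k - r)) / k` (`k` divides the numerator).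
* It is attained by the disjoint union `balanced n k` of `k` balanced complete bipartite graphs. -/
theorem result (n : ℕ) (hn1 : 1 ≤ n) :
    (∀ (V : Type) [Fintype V] (G : SimpleGraph V), Fintype.card V = 2 * n →
      (∃ M : G.Subgraph, M.IsPerfectMatching) →
        maxForcing G < n ∧ ∀ k r : ℕ, k = n - maxForcing G → r = n % k →
          n ^ 2 + r * (k - r) ≤ k * G.edgeSet.ncard ∧
          (n : ℚ) ^ 2 / (n - maxForcing G) ≤ G.edgeSet.ncard ∧
          ((n : ℚ) ^ 2 / (n - maxForcing G) = G.edgeSet.ncard → k ∣ n)) ∧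
    (∀ F k r : ℕ, F < n → k = n - F → r = n % k → k ∣ n ^ 2 + r * (k - r) ∧
      IsLeast {e : ℕ | ∃ (V : Type) (_ : Fintype V) (G : SimpleGraph V),
        Fintype.card V = 2 * n ∧ (∃ M : G.Subgraph, M.IsPerfectMatching) ∧ maxForcing G = F ∧
        G.edgeSet.ncard = e} ((n ^ 2 + r * (k - r)) / k)) ∧
    (∀ k r : ℕ, 1 ≤ k → k ≤ n → r = n % k →
      Fintype.card (Fin n × Bool) = 2 * n ∧
      (∃ M : (balanced n k).Subgraph, M.IsPerfectMatching) ∧
      maxForcing (balanced n k) = n - k ∧
      k * (balanced n k).edgeSet.ncard = n ^ 2 + r * (k - r)) := by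
  have hval : ∀ k r : ℕ, 1 ≤ k → r = n % k →
      k * (balanced n k).edgeSet.ncard = n ^ 2 + r * (k - r) := by
    intro k r hk hr
    have h1 := edges_formula n k hk _ rfl
    have h2 := Nat.div_add_mod n k
    rw [← hr] at h2
    have h3 : r < k := hr ▸ Nat.mod_lt n hk
    obtain ⟨s, rfl⟩ := Nat.exists_eq_add_of_lt h3
    rw [show r + s + 1 - r = s + 1 by omega]
    generalize n / (r + s + 1) = t at *
    subst h2
    nlinarith
  have hlow : ∀ (V : Type) [Fintype V] (G : SimpleGraph V), Fintype.card V = 2 * n →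
      (∃ M : G.Subgraph, M.IsPerfectMatching) → maxForcing G < n ∧
      (balanced n (n - maxForcing G)).edgeSet.ncard ≤ G.edgeSet.ncard := by
    intro V _ G hV hG
    obtain ⟨h1, h2⟩ := bound G n hn1 hV hG
    refine ⟨h1, ?_⟩
    have h3 := edges_formula n (n - maxForcing G) (by omega) _ rfl
    have h4 := h2 (n / (n - maxForcing G))
    omega
  have hcard : Fintype.card (Fin n × Bool) = 2 * n := by simp [mul_comm]
  have hperf : ∀ k, ∃ M : (balanced n k).Subgraph, M.IsPerfectMatching :=
    fun k => ⟨_, matchOf_perfect (k := k) (Equiv.refl (Fin n)) (fun _ => rfl)⟩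
  refine ⟨?_, ?_, ?_⟩
  · intro V _ G hV hG
    obtain ⟨h1, h2⟩ := hlow V G hV hG
    refine ⟨h1, fun k r hk hr => ?_⟩
    have hk1 : 1 ≤ k := by omega
    have h3 := hval k r hk1 hr
    rw [← hk] at h2
    have h4 : n ^ 2 + r * (k - r) ≤ k * G.edgeSet.ncard := h3 ▸ Nat.mul_le_mul_left k h2
    have hkq : (n : ℚ) - maxForcing G = k := by
      rw [hk, Nat.cast_sub h1.le]
    have hkpos : (0 : ℚ) < k := by exact_mod_cast hk1
    refine ⟨h4, ?_, ?_⟩
    · rw [hkq, div_le_iff₀ hkpos]
      have : n ^ 2 ≤ G.edgeSet.ncard * k := by rw [mul_comm]; omega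
      exact_mod_cast this
    · intro h5
      rw [hkq, div_eq_iff hkpos.ne'] at h5
      have h6 : n ^ 2 = G.edgeSet.ncard * k := by exact_mod_cast h5
      rw [mul_comm] at h6
      have h7 : r * (k - r) = 0 := by omega
      have h8 : r < k := hr ▸ Nat.mod_lt n hk1
      rcases Nat.mul_eq_zero.1 h7 with h9 | h9
      · exact Nat.dvd_of_mod_eq_zero (hr ▸ h9)
      · omega
  · intro F k r hF hk hr
    have hk1 : 1 ≤ k := by omega
    have h3 := hval k r hk1 hr
    refine ⟨⟨_, h3.symm⟩, ?_⟩
    rw [← h3, Nat.mul_div_cancel_left _ hk1]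
    refine ⟨⟨_, inferInstance, balanced n k, hcard, hperf k, ?_, rfl⟩, ?_⟩
    · rw [balanced_maxForcing n k hk1 (by omega)]
      omega
    · rintro e ⟨V, _, G, hV, hG, hGF, rfl⟩
      obtain ⟨h1, h2⟩ := hlow V G hV hG
      rw [hGF, ← hk] at h2
      exact h2
  · intro k r hk hkn hr
    exact ⟨hcard, hperf k, balanced_maxForcing n k hk hkn, hval k r hk hr⟩

end Pool.Agent.Results.MP_f5b231_co.ExactMinimum
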